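import Pool.Agent.H2.WTR2

set_option autoImplicit false

namespace Pool.Agent.Results.MP_55e6a3_gt.ClosedImage

/-- Weak theta-refinability. -/
def WeaklyThetaRefinable (X : Type) [TopologicalSpace X] : Prop :=
  ∀ 𝒰 : Set (Set X), (∀ U ∈ 𝒰, IsOpen U) → ⋃₀ 𝒰 = Set.univ →
    ∃ 𝒱 : ℕ → Set (Set X), (∀ n, ∀ V ∈ 𝒱 n, IsOpen V ∧ ∃ U ∈ 𝒰, V ⊆ U) ∧
      ∀ x, ∃ n, {V ∈ 𝒱 n | x ∈ V}.Nonempty ∧ {V ∈ 𝒱 n | x ∈ V}.Finite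

theorem result : ∃ (X Y : Type) (_ : TopologicalSpace X) (_ : TopologicalSpace Y) (f : X → Y),
    T2Space X ∧ T3Space Y ∧ Continuous f ∧ Function.Surjective f ∧ IsClosedMap f ∧
    WeaklyThetaRefinable X ∧ ¬ WeaklyThetaRefinable Y :=
  ⟨Pool.Agent.H2.WTR.XX, Pool.Agent.H2.WTR.W, inferInstance, inferInstance, Pool.Agent.H2.WTR.ff,
    inferInstance, inferInstance, Pool.Agent.H2.WTR.ff_cont, Pool.Agent.H2.WTR.ff_surj,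
    Pool.Agent.H2.WTR.ff_closed, Pool.Agent.H2.WTR.wtr_XX, Pool.Agent.H2.WTR.not_WTR⟩

end Pool.Agent.Results.MP_55e6a3_gt.ClosedImage
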